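import Mathlib
import Pool.Agent.Q11.Mix.Final

/-!
# Mixable finite groups are exactly the 2'-simple ones (MP_892d82_al, Q1)

`law g p x` is the probability that the random product
`g₁ ^ ε₁ * g₂ ^ ε₂ * ⋯ * g_k ^ ε_k` equals `x`, where the `ε_i` are independent with
`Pr(ε_i = 1) = p_i`.  A finite group is mixable if this law is exactly uniform for some choice of
the `g_i` and of the `p_i ∈ [0, 1]`.  We prove that a finite group is mixable if and only if its
only normal subgroup of odd index is the whole group.  In particular every finite 2'-simple group
is mixable, which is the affirmative answer to Q1.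

Idea of the proof.  Let `V` be an irreducible real representation of `G` with `∑ g = 0` on `V`.
(1) From any non-zero `x` the products of the operators `(1 - p) + p g`, up to positive scalars,
reach a dense set: if `y` is a nearest point to `w` of the closed cone of reachable points then
`⟨w - y, g y⟩ ≤ 0` for all `g`, and the sum over `g` is `0`.  (2) The points from which a given
`k ≠ 0` is reached have an interior, by the inverse function theorem.  So `x` is carried exactly
to a positive multiple of `k`.  (3) Hence a product of minimal non-zero rank can always be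
improved, as soon as one operator `(1 + g) / 2` is singular on `V`; and this holds if `G` has no
non-trivial quotient of odd order.  (4) Induction on the dimension kills the whole augmentation
part of the regular representation.
-/

namespace Pool.Agent.Results.MP_892d82_al.MixableIffNoOddQuotient

universe u

/-- The probability that `g₁ ^ ε₁ * ⋯ * g_k ^ ε_k = x`, for independent `ε_i ∈ {0, 1}` with
`Pr(ε_i = 1) = p_i`. -/
noncomputable def law {G : Type u} [Group G] [DecidableEq G] {k : ℕ} (g : Fin k → G)
    (p : Fin k → ℝ) (x : G) : ℝ :=
  ∑ ε : Fin k → Bool, if (List.ofFn fun i => if ε i then g i else 1).prod = x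
    then ∏ i, (if ε i then p i else 1 - p i) else 0

/-- Some random subproduct is exactly uniformly distributed. -/
def Mixable (G : Type u) [Group G] [Fintype G] [DecidableEq G] : Prop :=
  ∃ (k : ℕ) (g : Fin k → G) (p : Fin k → ℝ),
    (∀ i, 0 ≤ p i ∧ p i ≤ 1) ∧ ∀ x, law g p x = 1 / (Fintype.card G : ℝ)

/-- The only normal subgroup of odd index is the whole group. -/
def TwoPrimeSimple (G : Type u) [Group G] : Prop :=
  ∀ N : Subgroup G, N.Normal → Odd N.index → N = ⊤

theorem law_eq_dist {G : Type u} [Group G] [Fintype G] [DecidableEq G] :
    ∀ (k : ℕ) (g : Fin k → G) (p : Fin k → ℝ) (x : G),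
      law g p x = Pool.Agent.Q11.Mix.dist (List.ofFn fun i => (g i, p i)) x := by
  intro k
  induction k with
  | zero =>
    intro g p x
    simp only [law, List.ofFn_zero, List.prod_nil, Pool.Agent.Q11.Mix.dist, Finset.univ_eq_empty, Finset.prod_empty]
    rw [Fintype.sum_unique]
    simp only [eq_comm]
  | succ k ih =>
    intro g p x
    rw [List.ofFn_succ, Pool.Agent.Q11.Mix.dist, ← ih, ← ih]
    have h1 : law g p x = ∑ b : Bool, ∑ ε : Fin k → Bool,
        if ((if b then g 0 else 1) *
          (List.ofFn fun i => if ε i then g i.succ else 1).prod) = x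
        then (if b then p 0 else 1 - p 0) * ∏ i, (if ε i then p (Fin.succ i) else
          1 - p (Fin.succ i)) else 0 := by
      unfold law
      rw [← Fintype.sum_prod_type']
      refine (Fintype.sum_equiv (Fin.consEquiv fun _ : Fin (k + 1) => Bool) _ _ ?_).symm
      rintro ⟨b, ε⟩
      simp [Fin.consEquiv, List.ofFn_succ, Fin.prod_univ_succ]
    rw [h1, Fintype.sum_bool]
    simp only [if_true, Bool.false_eq_true, if_false, one_mul]
    rw [add_comm]
    congr 1
    · unfold law
      rw [Finset.mul_sum]
      refine Finset.sum_congr rfl fun ε _ => ?_
      rw [mul_ite, mul_zero]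
    · unfold law
      rw [Finset.mul_sum]
      refine Finset.sum_congr rfl fun ε _ => ?_
      rw [mul_ite, mul_zero]
      simp only [eq_inv_mul_iff_mul_eq]

/-- A finite group is mixable if and only if it has no non-trivial quotient of odd order. -/
theorem result (G : Type u) [Group G] [Fintype G] [DecidableEq G] :
    Mixable G ↔ TwoPrimeSimple G := by
  constructor
  · rintro ⟨k, g, p, hp, hx⟩
    have hok : Pool.Agent.Q11.Mix.Ok (List.ofFn fun i => (g i, p i)) := by
      intro a ha
      obtain ⟨i, rfl⟩ := (List.mem_ofFn' _ _).1 ha
      exact hp i
    exact Pool.Agent.Q11.Mix.noOddQuotient_of_uniform hok fun x => by rw [← law_eq_dist, hx]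
  · intro h
    obtain ⟨l, hl, hu⟩ := Pool.Agent.Q11.Mix.exists_uniform (G := G) h
    refine ⟨l.length, fun i => (l.get i).1, fun i => (l.get i).2, fun i => hl _ (l.get_mem i),
      fun x => ?_⟩
    rw [law_eq_dist]
    have : (List.ofFn fun i : Fin l.length => ((l.get i).1, (l.get i).2)) = l :=
      List.ofFn_get l
    rw [this, hu]

end Pool.Agent.Results.MP_892d82_al.MixableIffNoOddQuotient
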